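import Pool.Agent.H711.DT.Fin
import Pool.Agent.H711.DT.RHO

/-!
# Distinct triangles in planar lattice sections

`Pl` is the Euclidean plane, `T P` the number of congruence classes of the triangles (non-collinear
sets of three points) spanned by `P`, `Lat a b n` the lattice section `L_{a,b}(n)`,
`ratio a b n = T(L_{a,b}(n)) / n ^ 2`, and `c0` the limit inferior of `ratio e1 e2 n`. These definitions
are in `Pool.Agent.H711.DT.Stm`.

The square lattice section minimises the number of distinct triangles asymptotically:
`c0 ≤ liminf T(L_{a,b}(n)) / n ^ 2` for all linearly independent `a, b` (Q1 in full). Moreover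
`c0 ≤ 3 / 16 = 0.1875`, and the limit inferior is at least `0.189` unless `a, b` are orthogonal and of
the same length.

Proof. Triangles correspond to pairs `(p, q)` of integer vectors with `p, q, p - q` in the box, modulo the six
relabellings and the rational isometries of the quadratic form. If the form is not proportional to an
integral form, the only rational rotations are `1, -1`. For a primitive integral form `(A, B, C)` the rational
rotations are `(r + s W) / e` with `r² + B r s + A C s² = e²`; a pair on which such a rotation with `e > 1` is
integral lies in an eigenline of `W` modulo a prime; so the proportion of such pairs is bounded by a sum over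
primes (with the exact count modulo 12, and with the discriminants -7, -12, -15, -16 treated separately). For the
forms with discriminant -4 and -3 one uses in addition two or three rotated copies of the box.
-/

namespace Pool.Agent.Results.MP_047cd2_co.SquareLatticeOptimal

open Filter Pool.Agent.H711.DT

theorem result :
    (∀ a b : Pl, LinearIndependent ℝ ![a, b] →
      c0 ≤ liminf (fun n : ℕ => ratio a b n) atTop) ∧
    c0 ≤ ENNReal.ofReal (3 / 16) ∧
    (∀ a b : Pl, LinearIndependent ℝ ![a, b] → ¬ (‖a‖ = ‖b‖ ∧ inner ℝ a b = (0 : ℝ)) →
      ENNReal.ofReal (189 / 1000) ≤ liminf (fun n : ℕ => ratio a b n) atTop) :=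
  main_of rho_ok

end Pool.Agent.Results.MP_047cd2_co.SquareLatticeOptimal
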